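import Pool.Agent.Run7.h991.MU.Iface

open MeasureTheory Metric

namespace H991.MU

theorem card_le_of_mem_Icc {a ρ : ℝ} (hρ : 0 ≤ ρ) (B : Finset ℕ)
    (h : ∀ n ∈ B, a ≤ (n : ℝ) ∧ (n : ℝ) ≤ a + ρ) : (B.card : ℝ) ≤ ρ + 1 := by
  rcases B.eq_empty_or_nonempty with h0 | ⟨m, hm⟩
  · subst h0; simp; linarith
  · have hpos : 0 ≤ a + ρ := le_trans (Nat.cast_nonneg m) (h m hm).2
    have hsub : B ⊆ Finset.Icc ⌈a⌉₊ ⌊a + ρ⌋₊ := by
      intro n hn
      rw [Finset.mem_Icc]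
      exact ⟨Nat.ceil_le.mpr (h n hn).1, Nat.le_floor (h n hn).2⟩
    have h1 := Finset.card_le_card hsub
    rw [Nat.card_Icc] at h1
    have h2 : ((⌊a + ρ⌋₊ : ℕ) : ℝ) ≤ a + ρ := Nat.floor_le hpos
    have h3 : a ≤ ((⌈a⌉₊ : ℕ) : ℝ) := Nat.le_ceil a
    have h4 : ⌈a⌉₊ ≤ ⌊a + ρ⌋₊ := by
      have := hsub hm
      rw [Finset.mem_Icc] at this
      omega
    have h5 : B.card + ⌈a⌉₊ ≤ ⌊a + ρ⌋₊ + 1 := by omega
    have h6 : (B.card : ℝ) + ((⌈a⌉₊ : ℕ) : ℝ) ≤ ((⌊a + ρ⌋₊ : ℕ) : ℝ) + 1 := by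
      exact_mod_cast h5
    linarith

theorem t_LOC (hZER : S_ZER) (hLAG : S_LAG) : S_LOC := by
  intro δ hδ
  have hl2 : 0 < Real.log 2 := Real.log_pos (by norm_num)
  obtain ⟨c, ρ₁, hc, hρ₁, H⟩ := hLAG (δ / 4) (δ * Real.log 2 / 4) (by positivity) (by positivity)
  refine ⟨c, max ρ₁ 1, hc, lt_of_lt_of_le hρ₁ (le_max_left _ _), ?_⟩
  intro ρ X Y Φ Z hρ hd hb hZ hcard
  have hρ1 : ρ₁ ≤ ρ := le_trans (le_max_left _ _) hρ
  have hρ2 : 1 ≤ ρ := le_trans (le_max_right _ _) hρ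
  have hρ0 : 0 < ρ := by linarith
  classical
  set rows : Finset ℕ := Z.image Prod.snd with hrows
  set N : ℕ → ℕ := fun n => (Z.filter (fun p => p.2 = n)).card with hN
  have hsum : Z.card = ∑ n ∈ rows, N n := by
    rw [hrows, hN]
    exact Finset.card_eq_sum_card_image Prod.snd Z
  have hrowmem : ∀ n ∈ rows, Y ≤ (n : ℝ) ∧ (n : ℝ) ≤ Y + ρ := by
    intro n hn
    rw [hrows, Finset.mem_image] at hn
    obtain ⟨p, hp, rfl⟩ := hn
    exact ⟨(hZ p hp).2.2.1, (hZ p hp).2.2.2.1⟩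
  have hrowcard : (rows.card : ℝ) ≤ ρ + 1 := card_le_of_mem_Icc hρ0.le rows hrowmem
  have hinj : ∀ n, Set.InjOn Prod.fst ((Z.filter (fun p => p.2 = n) : Finset (ℕ × ℕ)) : Set (ℕ × ℕ)) := by
    intro n p hp q hq hpq
    have hp' := (Finset.mem_filter.mp (Finset.mem_coe.mp hp)).2
    have hq' := (Finset.mem_filter.mp (Finset.mem_coe.mp hq)).2
    exact Prod.ext hpq (hp'.trans hq'.symm)
  have hNle : ∀ n, (N n : ℝ) ≤ ρ + 1 := by
    intro n
    have h1 : ((Z.filter (fun p => p.2 = n)).image Prod.fst).card = N n :=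
      Finset.card_image_of_injOn (hinj n)
    rw [← h1]
    apply card_le_of_mem_Icc (a := X) hρ0.le
    intro m hm
    rw [Finset.mem_image] at hm
    obtain ⟨p, hp, rfl⟩ := hm
    have hp' := hZ p (Finset.mem_filter.mp hp).1
    exact ⟨hp'.1, hp'.2.1⟩
  set B : Finset ℕ := rows.filter (fun n => δ * ρ / 4 ≤ (N n : ℝ)) with hB
  have hBcard : δ / 4 * ρ ≤ (B.card : ℝ) := by
    have h1 : (Z.card : ℝ) = ∑ n ∈ B, (N n : ℝ) +
        ∑ n ∈ rows.filter (fun n => ¬ δ * ρ / 4 ≤ (N n : ℝ)), (N n : ℝ) := by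
      rw [hsum, hB, Finset.sum_filter_add_sum_filter_not]
      push_cast
      rfl
    have h2 : ∑ n ∈ B, (N n : ℝ) ≤ B.card * (ρ + 1) := by
      calc ∑ n ∈ B, (N n : ℝ) ≤ ∑ n ∈ B, (ρ + 1) := Finset.sum_le_sum (fun n _ => hNle n)
        _ = B.card * (ρ + 1) := by rw [Finset.sum_const, nsmul_eq_mul]
    have h3 : ∑ n ∈ rows.filter (fun n => ¬ δ * ρ / 4 ≤ (N n : ℝ)), (N n : ℝ) ≤
        (ρ + 1) * (δ * ρ / 4) := by
      calc ∑ n ∈ rows.filter (fun n => ¬ δ * ρ / 4 ≤ (N n : ℝ)), (N n : ℝ)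
          ≤ ∑ n ∈ rows.filter (fun n => ¬ δ * ρ / 4 ≤ (N n : ℝ)), (δ * ρ / 4) := by
            apply Finset.sum_le_sum
            intro n hn
            exact (not_le.mp (Finset.mem_filter.mp hn).2).le
        _ = ((rows.filter (fun n => ¬ δ * ρ / 4 ≤ (N n : ℝ))).card : ℝ) * (δ * ρ / 4) := by
            rw [Finset.sum_const, nsmul_eq_mul]
        _ ≤ (ρ + 1) * (δ * ρ / 4) := by
            apply mul_le_mul_of_nonneg_right _ (by positivity)
            refine le_trans ?_ hrowcard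
            exact_mod_cast Finset.card_filter_le _ _
    have h4 : δ * ρ ^ 2 ≤ B.card * (ρ + 1) + (ρ + 1) * (δ * ρ / 4) := by linarith
    have h5 : (B.card : ℝ) * (ρ + 1) ≤ B.card * (2 * ρ) :=
      mul_le_mul_of_nonneg_left (by linarith) (Nat.cast_nonneg _)
    have h6 : (ρ + 1) * (δ * ρ / 4) ≤ (2 * ρ) * (δ * ρ / 4) :=
      mul_le_mul_of_nonneg_right (by linarith) (by positivity)
    have h7 : δ * ρ ^ 2 / 2 ≤ B.card * (2 * ρ) := by nlinarith
    have h8 : (δ / 4 * ρ) * (2 * ρ) ≤ B.card * (2 * ρ) := by nlinarith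
    exact le_of_mul_le_mul_right h8 (by positivity)
  intro z hz w hw
  have hzb : z ∈ ball (X : ℂ) (8 * ρ) := by
    rw [mem_closedBall] at hz
    rw [mem_ball]; linarith
  have hBsmall : ∀ n ∈ B, |(n : ℝ) - Y| ≤ ρ ∧
      ‖Φ (z, (n : ℂ))‖ ≤ Real.exp (-(δ * Real.log 2 / 4 * ρ)) := by
    intro n hn
    have hn1 := (Finset.mem_filter.mp hn).1
    have hn2 := (Finset.mem_filter.mp hn).2
    have hn3 := hrowmem n hn1
    have habs : |(n : ℝ) - Y| ≤ ρ := by rw [abs_le]; constructor <;> linarith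
    refine ⟨habs, ?_⟩
    have hnb : (n : ℂ) ∈ ball (Y : ℂ) (8 * ρ) := by
      rw [mem_ball, Complex.dist_eq]
      have : ((n : ℂ) - (Y : ℂ)) = (((n : ℝ) - Y : ℝ) : ℂ) := by push_cast; rfl
      rw [this, Complex.norm_real, Real.norm_eq_abs]
      linarith
    set Zn : Finset ℂ := (Z.filter (fun p => p.2 = n)).image (fun p => (p.1 : ℂ)) with hZn
    have hZncard : Zn.card = N n := by
      rw [hZn]
      apply Finset.card_image_of_injOn
      intro p hp q hq hpq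
      apply hinj n hp hq
      exact Nat.cast_injective (R := ℂ) hpq
    have hd1 : DifferentiableOn ℂ (fun ζ => Φ (ζ, (n : ℂ))) (ball (X : ℂ) (8 * ρ)) := by
      apply hd.comp
      · exact (differentiable_id.prodMk (differentiable_const _)).differentiableOn
      · intro ζ hζ
        exact ⟨hζ, hnb⟩
    have key := hZER ρ 1 (X : ℂ) (fun ζ => Φ (ζ, (n : ℂ))) Zn hρ0 zero_le_one hd1
      (fun ζ hζ => hb (ζ, (n : ℂ)) ⟨hζ, hnb⟩)
      (by
        intro a ha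
        rw [hZn, Finset.mem_image] at ha
        obtain ⟨p, hp, rfl⟩ := ha
        have hp1 := (Finset.mem_filter.mp hp).1
        have hp2 := (Finset.mem_filter.mp hp).2
        have hp3 := hZ p hp1
        constructor
        · rw [mem_closedBall, Complex.dist_eq]
          have : ((p.1 : ℂ) - (X : ℂ)) = (((p.1 : ℝ) - X : ℝ) : ℂ) := by push_cast; rfl
          rw [this, Complex.norm_real, Real.norm_eq_abs, abs_le]
          constructor <;> linarith [hp3.1, hp3.2.1]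
        · have := hp3.2.2.2.2
          rw [hp2] at this
          exact this)
      z hz
    refine le_trans key ?_
    rw [one_mul, hZncard]
    have h1 : ((1 : ℝ) / 2) ^ (N n) = Real.exp (-((N n : ℝ) * Real.log 2)) := by
      rw [← Real.rpow_natCast, Real.rpow_def_of_pos (by norm_num)]
      congr 1
      rw [one_div, Real.log_inv]
      ring
    rw [h1]
    apply Real.exp_le_exp.mpr
    have := mul_le_mul_of_nonneg_right hn2 hl2.le
    nlinarith
  have hd2 : DifferentiableOn ℂ (fun ζ => Φ (z, ζ)) (ball (Y : ℂ) (8 * ρ)) := by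
    apply hd.comp
    · exact ((differentiable_const _).prodMk differentiable_id).differentiableOn
    · intro ζ hζ
      exact ⟨hzb, hζ⟩
  exact H ρ Y (fun ζ => Φ (z, ζ)) B hρ1 hd2 (fun ζ hζ => hb (z, ζ) ⟨hzb, hζ⟩) hBsmall hBcard w hw

end H991.MU
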