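import Pool.Agent.Run7.h991.MU.Iface

open MeasureTheory Metric

namespace H991.MU

/-- The part of `Ω` in the angle `ε m ≤ n ≤ m / ε`. -/
def angPart (Ω : Set (ℕ × ℕ)) (ε : ℝ) : Set (ℕ × ℕ) :=
  {p ∈ Ω | ε * (p.1 : ℝ) ≤ p.2 ∧ ε * (p.2 : ℝ) ≤ p.1}

theorem angPart_inAngle (Ω : Set (ℕ × ℕ)) (ε : ℝ) (h : ∀ p ∈ Ω, 1 ≤ p.1 ∧ 1 ≤ p.2) :
    InAngle (angPart Ω ε) ε := by
  rintro p ⟨hp, h1, h2⟩
  exact ⟨(h p hp).1, (h p hp).2, h1, h2⟩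

theorem angPart_dens (Ω : Set (ℕ × ℕ)) (δ : ℝ) (hδ : 0 < δ) (h : ∀ p ∈ Ω, 1 ≤ p.1 ∧ 1 ≤ p.2)
    (hd : Dens Ω δ) : Dens (angPart Ω (δ / 4)) (δ / 2) := by
  intro R0
  obtain ⟨R, hR, hc⟩ := hd R0
  refine ⟨R, hR, ?_⟩
  classical
  have hfin : ∀ W : Set (ℕ × ℕ), ({p ∈ W | p.1 ≤ R ∧ p.2 ≤ R}).Finite := by
    intro W
    apply Set.Finite.subset (Set.finite_Iic (R, R))
    rintro p ⟨_, h⟩
    exact ⟨h.1, h.2⟩
  set k : ℕ := ⌊δ / 4 * (R : ℝ)⌋₊ with hk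
  have hRnn : (0 : ℝ) ≤ R := Nat.cast_nonneg R
  have hknn : 0 ≤ δ / 4 * (R : ℝ) := by positivity
  have hkle : (k : ℝ) ≤ δ / 4 * R := Nat.floor_le hknn
  set U : Finset (ℕ × ℕ) := Finset.Icc 1 R ×ˢ Finset.Icc 1 k with hU
  set W : Finset (ℕ × ℕ) := Finset.Icc 1 k ×ˢ Finset.Icc 1 R with hW
  have hsub : {p ∈ Ω | p.1 ≤ R ∧ p.2 ≤ R} ⊆
      {p ∈ angPart Ω (δ / 4) | p.1 ≤ R ∧ p.2 ≤ R} ∪ ((U ∪ W : Finset (ℕ × ℕ)) : Set (ℕ × ℕ)) := by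
    rintro p ⟨hp, hp1, hp2⟩
    have hpos := h p hp
    by_cases ha : δ / 4 * (p.1 : ℝ) ≤ p.2
    · by_cases hb : δ / 4 * (p.2 : ℝ) ≤ p.1
      · exact Or.inl ⟨⟨hp, ha, hb⟩, hp1, hp2⟩
      · right
        rw [Finset.coe_union]
        right
        rw [Finset.mem_coe, hW, Finset.mem_product, Finset.mem_Icc, Finset.mem_Icc]
        refine ⟨⟨hpos.1, ?_⟩, hpos.2, hp2⟩
        apply Nat.le_floor
        have h3 : (p.2 : ℝ) ≤ R := by exact_mod_cast hp2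
        have h4 := mul_le_mul_of_nonneg_left h3 (by positivity : (0 : ℝ) ≤ δ / 4)
        linarith [not_le.mp hb]
    · right
      rw [Finset.coe_union]
      left
      rw [Finset.mem_coe, hU, Finset.mem_product, Finset.mem_Icc, Finset.mem_Icc]
      refine ⟨⟨hpos.1, hp1⟩, hpos.2, ?_⟩
      apply Nat.le_floor
      have h3 : (p.1 : ℝ) ≤ R := by exact_mod_cast hp1
      have h4 := mul_le_mul_of_nonneg_left h3 (by positivity : (0 : ℝ) ≤ δ / 4)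
      linarith [not_le.mp ha]
  have hcard := Set.ncard_le_ncard hsub ((hfin _).union (Finset.finite_toSet _))
  have hcard2 := Set.ncard_union_le {p ∈ angPart Ω (δ / 4) | p.1 ≤ R ∧ p.2 ≤ R}
    ((U ∪ W : Finset (ℕ × ℕ)) : Set (ℕ × ℕ))
  rw [Set.ncard_coe_finset] at hcard2
  have hUW : (U ∪ W).card ≤ U.card + W.card := Finset.card_union_le _ _
  have hUc : U.card = R * k := by
    rw [hU, Finset.card_product, Nat.card_Icc, Nat.card_Icc]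
    simp
  have hWc : W.card = k * R := by
    rw [hW, Finset.card_product, Nat.card_Icc, Nat.card_Icc]
    simp
  have hfinal : ({p ∈ Ω | p.1 ≤ R ∧ p.2 ≤ R}.ncard : ℝ) ≤
      ({p ∈ angPart Ω (δ / 4) | p.1 ≤ R ∧ p.2 ≤ R}.ncard : ℝ) + (R * k + k * R) := by
    have : {p ∈ Ω | p.1 ≤ R ∧ p.2 ≤ R}.ncard ≤
        {p ∈ angPart Ω (δ / 4) | p.1 ≤ R ∧ p.2 ≤ R}.ncard + (R * k + k * R) := by omega
    exact_mod_cast this
  have h5 : (R : ℝ) * k ≤ R * (δ / 4 * R) := mul_le_mul_of_nonneg_left hkle hRnn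
  nlinarith

end H991.MU
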