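import Mathlib

/-!
# Definitions for MP_dde81e_an (Muntz type completeness on the unit square)
-/

open MeasureTheory

namespace H991.MU

/-- The square `Q = [0,1]²`. -/
abbrev Q : Type := ↥unitInterval × ↥unitInterval

/-- The monomial `x^m y^n` on the square. -/
noncomputable def mon (m n : ℕ) : C(Q, ℂ) :=
  ⟨fun q => ((q.1 : ℝ) : ℂ) ^ m * ((q.2 : ℝ) : ℂ) ^ n, by fun_prop⟩

/-- `C_0(Q)`: the continuous functions that vanish where `x = 0` or `y = 0`. -/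
def C0 : Set C(Q, ℂ) := {f | ∀ q : Q, (q.1 = 0 ∨ q.2 = 0) → f q = 0}

/-- `Ω` consists of pairs of positive integers in the angle `ε m ≤ n ≤ m / ε`. -/
def InAngle (Ω : Set (ℕ × ℕ)) (ε : ℝ) : Prop :=
  ∀ p ∈ Ω, 1 ≤ p.1 ∧ 1 ≤ p.2 ∧ ε * (p.1 : ℝ) ≤ p.2 ∧ ε * (p.2 : ℝ) ≤ p.1

/-- `Ω` has positive upper density: `limsup #(Ω ∩ [1,R]²) / R² > 0`, with a lower bound `δ`. -/
def Dens (Ω : Set (ℕ × ℕ)) (δ : ℝ) : Prop :=
  ∀ R0 : ℕ, ∃ R : ℕ, R0 ≤ R ∧ δ * (R : ℝ) ^ 2 ≤ ({p ∈ Ω | p.1 ≤ R ∧ p.2 ≤ R}.ncard : ℝ)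

/-! ### auxiliary notions -/

/-- The product of two right half planes. -/
def RH2 : Set (ℂ × ℂ) := {p | 0 < p.1.re ∧ 0 < p.2.re}

/-- Holomorphic and bounded by `1` on the product of two right half planes. -/
def BH (F : ℂ × ℂ → ℂ) : Prop := DifferentiableOn ℂ F RH2 ∧ ∀ p ∈ RH2, ‖F p‖ ≤ 1

/-- `a` is an admissible exponent in the direction `(x, y)`. -/
def Adm (F : ℂ × ℂ → ℂ) (x y a : ℝ) : Prop :=
  ∀ t : ℝ, 0 < t → ∀ β γ : ℝ,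
    ‖F ((⟨t * x, β⟩ : ℂ), (⟨t * y, γ⟩ : ℂ))‖ ≤ Real.exp (-(a * t))

/-- `A x y` is the largest admissible exponent in the direction `(x, y)`. -/
def IsExp (F : ℂ × ℂ → ℂ) (A : ℝ → ℝ → ℝ) : Prop :=
  ∀ x y : ℝ, 0 < x → 0 < y → Adm F x y (A x y) ∧ ∀ a, Adm F x y a → a ≤ A x y

/-- Nonnegative, homogeneous and superadditive (hence concave) on the open quadrant. -/
def Conc (A : ℝ → ℝ → ℝ) : Prop :=
  (∀ x y, 0 < x → 0 < y → 0 ≤ A x y) ∧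
  (∀ t x y, 0 < t → 0 < x → 0 < y → A (t * x) (t * y) = t * A x y) ∧
  (∀ x₁ y₁ x₂ y₂, 0 < x₁ → 0 < y₁ → 0 < x₂ → 0 < y₂ →
    A x₁ y₁ + A x₂ y₂ ≤ A (x₁ + x₂) (y₁ + y₂))

/-- The second difference of `A x` at `y` with step `h`. -/
def D2 (A : ℝ → ℝ → ℝ) (x y h : ℝ) : ℝ := 2 * A x y - A x (y + h) - A x (y - h)

theorem mem_RH2 {p : ℂ × ℂ} : p ∈ RH2 ↔ 0 < p.1.re ∧ 0 < p.2.re := Iff.rfl

end H991.MU
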