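import Pool.Agent.Run7.h991.MU.Iface

open MeasureTheory Metric

namespace H991.MU

/-- `C_0(Q)` as a submodule. -/
noncomputable def C0sub : Submodule ℂ C(Q, ℂ) where
  carrier := C0
  add_mem' := by
    intro f g hf hg q hq
    rw [ContinuousMap.add_apply, hf q hq, hg q hq, add_zero]
  zero_mem' := by
    intro q _
    rfl
  smul_mem' := by
    intro c f hf q hq
    rw [ContinuousMap.smul_apply, hf q hq, smul_zero]

theorem isClosed_C0 : IsClosed C0 := by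
  have : C0 = ⋂ q : Q, {f : C(Q, ℂ) | (q.1 = 0 ∨ q.2 = 0) → f q = 0} := by
    ext f
    simp [C0]
  rw [this]
  apply isClosed_iInter
  intro q
  by_cases hq : (q.1 = 0 ∨ q.2 = 0)
  · have : {f : C(Q, ℂ) | (q.1 = 0 ∨ q.2 = 0) → f q = 0} = (fun f : C(Q, ℂ) => f q) ⁻¹' {0} := by
      ext f
      simp [hq]
    rw [this]
    exact IsClosed.preimage (continuous_eval_const q) isClosed_singleton
  · have : {f : C(Q, ℂ) | (q.1 = 0 ∨ q.2 = 0) → f q = 0} = Set.univ := by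
      ext f
      simp [hq]
    rw [this]
    exact isClosed_univ

theorem mon_mem_C0 {m n : ℕ} (hm : 1 ≤ m) (hn : 1 ≤ n) : mon m n ∈ C0 := by
  intro q hq
  show (((q.1 : ℝ) : ℂ) ^ m * ((q.2 : ℝ) : ℂ) ^ n) = 0
  rcases hq with h | h
  · rw [h]
    simp [show m ≠ 0 by omega]
  · rw [h]
    simp [show n ≠ 0 by omega]

theorem closure_eq (hFINC : S_FINC) (Ω : Set (ℕ × ℕ)) (ε δ : ℝ) (h1 : 0 < ε) (h2 : ε ≤ 1)
    (h3 : 0 < δ) (h4 : InAngle Ω ε) (h5 : Dens Ω δ) :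
    ((Submodule.span ℂ {g : C(Q, ℂ) | ∃ p ∈ Ω, g = mon p.1 p.2}).topologicalClosure :
      Set C(Q, ℂ)) = C0 := by
  apply Set.Subset.antisymm
  · have : (Submodule.span ℂ {g : C(Q, ℂ) | ∃ p ∈ Ω, g = mon p.1 p.2}).topologicalClosure ≤
        C0sub := by
      apply Submodule.topologicalClosure_minimal
      · rw [Submodule.span_le]
        rintro g ⟨p, hp, rfl⟩
        exact mon_mem_C0 (h4 p hp).1 (h4 p hp).2.1
      · exact isClosed_C0
    exact this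
  · intro f hf
    exact hFINC Ω ε δ h1 h2 h3 h4 h5 f hf

/-- Positive upper density implies divergence of `∑ 1/(m n)`. -/
theorem not_summable (Ω : Set (ℕ × ℕ)) (ε δ : ℝ) (h3 : 0 < δ) (h4 : InAngle Ω ε)
    (h5 : Dens Ω δ) :
    ¬ Summable (fun p : Ω => 1 / (((p : ℕ × ℕ).1 : ℝ) * ((p : ℕ × ℕ).2 : ℝ))) := by
  intro hs
  classical
  have hs' := hs
  rw [summable_iff_vanishing_norm] at hs'
  obtain ⟨s, hs2⟩ := hs' (δ / 2) (by positivity)
  obtain ⟨R, hR, hcard⟩ := h5 (⌈2 * (s.card : ℝ) / δ⌉₊ + 1)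
  have hfin : ({p ∈ Ω | p.1 ≤ R ∧ p.2 ≤ R}).Finite := by
    apply Set.Finite.subset (Set.finite_Iic (R, R))
    rintro p ⟨_, h⟩
    exact ⟨h.1, h.2⟩
  set t0 : Finset (ℕ × ℕ) := hfin.toFinset with ht0
  have ht0card : (t0.card : ℝ) = ({p ∈ Ω | p.1 ≤ R ∧ p.2 ≤ R}.ncard : ℝ) := by
    rw [ht0, Set.ncard_eq_toFinset_card _ hfin]
  have hmem : ∀ p ∈ t0, p ∈ Ω := fun p hp => (hfin.mem_toFinset.mp hp).1
  set t1 : Finset Ω := t0.attach.image (fun p => (⟨p.1, hmem p.1 p.2⟩ : Ω)) with ht1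
  have ht1card : t1.card = t0.card := by
    rw [ht1, Finset.card_image_of_injective, Finset.card_attach]
    intro a b hab
    have := congrArg (fun x : Ω => (x : ℕ × ℕ)) hab
    exact Subtype.ext this
  have hR1 : 1 ≤ R := by omega
  have hRpos : (0 : ℝ) < R := by exact_mod_cast hR1
  have h6 := hs2 (t1 \ s) Finset.sdiff_disjoint
  have h7 : ((t1 \ s).card : ℝ) * (1 / (R : ℝ) ^ 2) ≤
      ∑ p ∈ t1 \ s, 1 / (((p : ℕ × ℕ).1 : ℝ) * ((p : ℕ × ℕ).2 : ℝ)) := by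
    rw [← nsmul_eq_mul, ← Finset.sum_const]
    apply Finset.sum_le_sum
    intro p hp
    have hp1 := (Finset.mem_sdiff.mp hp).1
    rw [ht1, Finset.mem_image] at hp1
    obtain ⟨q, _, rfl⟩ := hp1
    have hq := hfin.mem_toFinset.mp q.2
    have hq4 := h4 q.1 hq.1
    have a1 : (1 : ℝ) ≤ (q.1.1 : ℝ) := by exact_mod_cast hq4.1
    have a2 : (1 : ℝ) ≤ (q.1.2 : ℝ) := by exact_mod_cast hq4.2.1
    have a3 : (q.1.1 : ℝ) ≤ R := by exact_mod_cast hq.2.1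
    have a4 : (q.1.2 : ℝ) ≤ R := by exact_mod_cast hq.2.2
    show 1 / (R : ℝ) ^ 2 ≤ 1 / ((q.1.1 : ℝ) * (q.1.2 : ℝ))
    apply one_div_le_one_div_of_le (by positivity)
    nlinarith
  have h8 : (t0.card : ℝ) - s.card ≤ ((t1 \ s).card : ℝ) := by
    have := Finset.le_card_sdiff s t1
    rw [ht1card] at this
    have h9 : t0.card ≤ (t1 \ s).card + s.card := by omega
    have h10 : (t0.card : ℝ) ≤ ((t1 \ s).card : ℝ) + s.card := by exact_mod_cast h9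
    linarith
  have h9 : 2 * (s.card : ℝ) / δ ≤ R := by
    have := Nat.le_ceil (2 * (s.card : ℝ) / δ)
    have h10 : ((⌈2 * (s.card : ℝ) / δ⌉₊ : ℕ) : ℝ) + 1 ≤ R := by exact_mod_cast hR
    linarith
  have h10 : (s.card : ℝ) ≤ δ / 2 * (R : ℝ) ^ 2 := by
    rw [div_le_iff₀ h3] at h9
    have : (R : ℝ) ≤ (R : ℝ) ^ 2 := by
      have : (1 : ℝ) ≤ R := by exact_mod_cast hR1
      nlinarith
    nlinarith
  have h11 : δ / 2 ≤ ((t1 \ s).card : ℝ) * (1 / (R : ℝ) ^ 2) := by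
    rw [mul_one_div, le_div_iff₀ (by positivity)]
    rw [ht0card] at h8
    linarith
  have h12 : δ / 2 ≤ ‖∑ p ∈ t1 \ s, 1 / (((p : ℕ × ℕ).1 : ℝ) * ((p : ℕ × ℕ).2 : ℝ))‖ := by
    refine le_trans (le_trans h11 h7) (le_abs_self _)
  linarith

end H991.MU
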