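import Pool.Agent.Run7.h991.MU.Defs

/-!
# Pieces for MP_dde81e_an: lattice sets of positive upper density in an angle span

Every piece is a closed `Prop` `S_XXX`; the file of piece `XXX` proves
`theorem t_XXX (h : S_DEP) ... : S_XXX` (dependences named in the doc string).
-/

open MeasureTheory Metric

namespace H991.MU

/-! ## A. The exponent function -/

/-- NZ (no dependence, 60 lines).  Identity theorem twice: if `F = 0` on `{Re z = x, Re w = y}`, then for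
`w` with `Re w = y` the function `F(·, w)`, holomorphic on the right half plane, vanishes on a vertical
line, hence identically (`AnalyticOnNhd.eqOn_zero_of_preconnected_of_frequently_eq_zero`); then for every
`z` the function `F(z, ·)` vanishes on the line `Re w = y`, hence identically. -/
def S_NZ : Prop :=
  ∀ F : ℂ × ℂ → ℂ, BH F → (∃ p ∈ RH2, F p ≠ 0) →
    ∀ x y : ℝ, 0 < x → 0 < y → ∃ β γ : ℝ, F ((⟨x, β⟩ : ℂ), (⟨y, γ⟩ : ℂ)) ≠ 0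

/-- SUP (no dependence, 60 lines).  Three lines theorem
(`Complex.HadamardThreeLines.norm_le_interp_of_mem_verticalClosedStrip'`) for
`ζ ↦ F((1-ζ) 2t x₁ + ζ 2t x₂ + iβ, (1-ζ) 2t y₁ + ζ 2t y₂ + iγ)` at `ζ = 1/2`:
on `Re ζ = 0` the bound is `exp(-2at)`, on `Re ζ = 1` it is `exp(-2bt)`; the geometric mean is
`exp(-(a+b)t)`. -/
def S_SUP : Prop :=
  ∀ F : ℂ × ℂ → ℂ, BH F → ∀ x₁ y₁ x₂ y₂ a b : ℝ, 0 < x₁ → 0 < y₁ → 0 < x₂ → 0 < y₂ →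
    Adm F x₁ y₁ a → Adm F x₂ y₂ b → Adm F (x₁ + x₂) (y₁ + y₂) (a + b)

/-- AFUN (from `S_NZ`, `S_SUP`, 60 lines).  For `x, y > 0` the set of admissible exponents contains `0`
(`|F| ≤ 1`), is bounded above (by `S_NZ` there is a point with `t = 1` where `F ≠ 0`, so
`a ≤ -log |F|`), and contains its supremum (let `a → sup`); `A x y` is the supremum.
`Adm F (t x) (t y) (t a) ↔ Adm F x y a` gives homogeneity and `S_SUP` superadditivity. -/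
def S_AFUN : Prop :=
  ∀ F : ℂ × ℂ → ℂ, BH F → (∃ p ∈ RH2, F p ≠ 0) → ∃ A : ℝ → ℝ → ℝ, IsExp F A ∧ Conc A

/-- CHORD (no dependence, 40 lines).  `ψ(y) = A x₀ y` is concave on `(0,∞)`
(`A x₀ (λ y + (1-λ) y') ≥ λ A x₀ y + (1-λ) A x₀ y'` by superadditivity and homogeneity).
Take `l₂ = (ψ(y₀+h) - ψ(y₀-h)) / (2h)` and `l₁` with `l₁ x₀ + l₂ y₀ = (ψ(y₀+h) + ψ(y₀-h))/2`, the chord:
for `|y' - y₀| ≤ h`, `l₁ x₀ + l₂ y' ≤ ψ(y')`.  With `y' = x₀ y / x`,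
`A x y = (x/x₀) ψ(x₀ y/x) ≥ (x/x₀) (l₁ x₀ + l₂ x₀ y / x) = l₁ x + l₂ y`. -/
def S_CHORD : Prop :=
  ∀ A : ℝ → ℝ → ℝ, Conc A → ∀ x₀ y₀ h : ℝ, 0 < x₀ → 0 < h → h < y₀ →
    ∃ l₁ l₂ : ℝ, A x₀ y₀ - (l₁ * x₀ + l₂ * y₀) = D2 A x₀ y₀ h / 2 ∧
      ∀ x y : ℝ, 0 < x → 0 < y → |x₀ * y / x - y₀| ≤ h → l₁ * x + l₂ * y ≤ A x y

/-- TEL (no dependence, 90 lines).  `Λ = A 1 y₁ / y₁ + 1`.  `ψ(y) = A x₀ y` is concave and `≥ 0` on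
`(0,∞)`, so `ψ(y)/y` is nonincreasing, `ψ` is nondecreasing and
`0 ≤ ψ(y+k) - ψ(y) ≤ k ψ(y)/y ≤ k ψ(y₁)/y₁` for `y ≥ y₁`; similarly `A x₀ y₁ ≤ A 1 y₁` for `x₀ ≤ 1`.
Let `ψ_b = ψ(bκ)`, `b₀ = min T`, `b₁ = max T`; all second differences are `≥ 0` and they telescope:
`∑_{b∈T} D_b ≤ ∑_{b=b₀}^{b₁} (2ψ_b - ψ_{b+s} - ψ_{b-s})
 = ∑_{b=b₀}^{b₀+s-1} (ψ_b - ψ_{b-s}) - ∑_{b=b₁+1-s}^{b₁} (ψ_{b+s} - ψ_b) ≤ s (sκ) Λ`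
(by induction on `b₁`, or split the range), while the left side is at least `#T η κ`. -/
def S_TEL : Prop :=
  ∀ A : ℝ → ℝ → ℝ, Conc A → ∀ y₁ : ℝ, 0 < y₁ → ∃ Λ : ℝ, 0 < Λ ∧
    ∀ (x₀ κ η : ℝ) (s : ℕ), 0 < x₀ → x₀ ≤ 1 → 0 < κ → 0 < η → 1 ≤ s → ∀ B : Finset ℕ,
      (∀ b ∈ B, y₁ + s * κ ≤ b * κ ∧ η * κ < D2 A x₀ (b * κ) (s * κ)) →
      (B.card : ℝ) * η ≤ (s : ℝ) ^ 2 * Λ

/-- RAY (no dependence, 100 lines).  `c' = c / log (4/κ)`.  Fix `z` with `Re z > 0`, let `R` be large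
with the hypothesis, `k = ⌊c R / log(4/κ)⌋`, and put `g(ω) = G(R (1+ω)/(1-ω))`, holomorphic on the unit
disc, `|g| ≤ 1`.  For `|ω| ≤ κ/4`: `|R(1+ω)/(1-ω) - R| = 2R|ω|/|1-ω| ≤ κR`, so `|g| ≤ e^{-cR} ≤ (κ/4)^k`.
Maximum modulus for `g(ω)/ω^k` on `κ/4 < |ω| < r` and `r → 1`: `|g(ω)| ≤ |ω|^k` for `|ω| ≥ κ/4`.
With `ω = (z-R)/(z+R)`: `|ω|² = 1 - 4R Re z/|z+R|²`, so
`|G(z)| ≤ |ω|^k ≤ exp(-2 k R Re z/|z+R|²)`, and `2kR/|z+R|² → 2c/log(4/κ) > c'` as `R → ∞`. -/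
def S_RAY : Prop :=
  ∀ c κ : ℝ, 0 < c → 0 < κ → κ ≤ 1 / 2 → ∃ c' : ℝ, 0 < c' ∧ ∀ G : ℂ → ℂ,
    DifferentiableOn ℂ G {z | 0 < z.re} → (∀ z : ℂ, 0 < z.re → ‖G z‖ ≤ 1) →
    (∀ R₀ : ℝ, ∃ R : ℝ, R₀ ≤ R ∧ ∀ z : ℂ, ‖z - (R : ℂ)‖ ≤ κ * R → ‖G z‖ ≤ Real.exp (-(c * R))) →
    ∀ z : ℂ, 0 < z.re → ‖G z‖ ≤ Real.exp (-(c' * z.re))

/-- RAYA (from `S_RAY`, 80 lines).  Let `A₀ = A x₀ y₀`, `κ'' > 0` with `κ'' (x₀ + y₀) ≤ κ/2`,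
`A₀ κ'' ≤ c/2`, `κ'' ≤ 1/2`, and `c'` from `S_RAY` for `c/2`, `κ''`.  For fixed real `β, γ` the function
`G(ζ) = F(x₀ ζ + iβ, y₀ ζ + iγ) exp(A₀ ζ)` is holomorphic for `Re ζ > 0` and `|G| ≤ 1` by `Adm`
(`t = Re ζ`).  If the negated statement held, then for large such `R` and `|ζ - R| ≤ κ'' R`:
`|x₀ζ + iβ - R x₀| ≤ κR`, etc., so `|G(ζ)| ≤ exp(-(A₀+c)R + A₀ (R + κ''R)) ≤ exp(-(c/2)R)`.
By `S_RAY`, `|G(ζ)| ≤ exp(-c' Re ζ)`, for all `β, γ`; so `A₀ + c'` is admissible: contradiction. -/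
def S_RAYA : Prop :=
  ∀ (F : ℂ × ℂ → ℂ) (A : ℝ → ℝ → ℝ), BH F → IsExp F A → Conc A →
    ∀ x₀ y₀ c κ : ℝ, 0 < x₀ → 0 < y₀ → 0 < c → 0 < κ →
      ¬ ∀ R₀ : ℝ, ∃ R : ℝ, R₀ ≤ R ∧ ∀ z w : ℂ, ‖z - ((R * x₀ : ℝ) : ℂ)‖ ≤ κ * R →
        ‖w - ((R * y₀ : ℝ) : ℂ)‖ ≤ κ * R → ‖F (z, w)‖ ≤ Real.exp (-((A x₀ y₀ + c) * R))

/-! ## B. Many zeros make a bounded function small -/

/-- ZER (no dependence, 50 lines).  Induction on `Z` with `dslope` gives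
`g(z) = (∏_{a∈Z} (z - a)) h(z)` on the ball with `h` holomorphic (`Complex.differentiableOn_dslope`).
On `|ζ - c| = 5ρ`, `|ζ - a| ≥ 4ρ`, so `|h| ≤ M (4ρ)^{-N}` there and by the maximum principle inside;
for `|z - c| ≤ ρ`, `|z - a| ≤ 2ρ`.  So `|g| ≤ M (2ρ)^N (4ρ)^{-N}`. -/
def S_ZER : Prop :=
  ∀ (ρ M : ℝ) (c : ℂ) (g : ℂ → ℂ) (Z : Finset ℂ), 0 < ρ → 0 ≤ M →
    DifferentiableOn ℂ g (ball c (8 * ρ)) → (∀ z ∈ ball c (8 * ρ), ‖g z‖ ≤ M) →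
    (∀ a ∈ Z, a ∈ closedBall c ρ ∧ g a = 0) →
    ∀ z ∈ closedBall c ρ, ‖g z‖ ≤ M * (1 / 2) ^ Z.card

/-- LPR (no dependence, 50 lines).  Let `n = #B - 1`.  The `k` elements of `B` below `i` have distances to
`i` at least `1, 2, ..., k` in increasing order, product `≥ k!`; the `l` elements above give `l!`;
`k + l = n`, and `k! l! ≥ n!/2^n ≥ (n/(2e))^n ≥ (n/6)^n`. -/
def S_LPR : Prop :=
  ∀ (B : Finset ℕ) (i : ℕ), i ∈ B →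
    (((B.card : ℝ) - 1) / 6) ^ (B.card - 1) ≤ ∏ j ∈ B.erase i, |(i : ℝ) - (j : ℝ)|

/-- LAG (from `S_ZER`, `S_LPR`, 120 lines).  Choose `θ ∈ (0, min(δ,1)/2]` with `θ log(54/θ) ≤ d/4`, let
`s = ⌊θρ⌋ + 1 ≤ #B` (`ρ` large), `B' ⊆ B` with `s` elements, and `P` the Lagrange interpolation
polynomial of `g` at the nodes `n ∈ B'`:
`P(w) = ∑_{i∈B'} g(i) ∏_{j∈B'∖i} (w - j)/(i - j)`.  On `ball Y (8ρ)`, by `S_LPR`,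
`|P| ≤ s e^{-dρ} (9ρ)^{s-1} / ((s-1)/6)^{s-1} = s e^{-dρ} (54ρ/(s-1))^{s-1} ≤ s e^{-dρ} (54/θ)^{θρ}`
(`n ↦ (54ρ/n)^n` increases for `n ≤ ρ`, and `s - 1 ≤ θρ`), which is `≤ e^{-dρ/2} ≤ 1` for large `ρ`.
`g - P` is bounded by `2` and vanishes at `s` points of `closedBall Y ρ`, so by `S_ZER`
`|g - P| ≤ 2 · 2^{-s}` on `closedBall Y ρ`.  So `|g| ≤ 2 · 2^{-θρ} + e^{-dρ/2} ≤ e^{-cρ}` with
`c = min(θ log 2, d/2)/2` and `ρ` large. -/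
def S_LAG : Prop :=
  ∀ δ d : ℝ, 0 < δ → 0 < d → ∃ c ρ₀ : ℝ, 0 < c ∧ 0 < ρ₀ ∧
    ∀ (ρ Y : ℝ) (g : ℂ → ℂ) (B : Finset ℕ), ρ₀ ≤ ρ →
      DifferentiableOn ℂ g (ball (Y : ℂ) (8 * ρ)) → (∀ w ∈ ball (Y : ℂ) (8 * ρ), ‖g w‖ ≤ 1) →
      (∀ n ∈ B, |(n : ℝ) - Y| ≤ ρ ∧ ‖g (n : ℂ)‖ ≤ Real.exp (-(d * ρ))) → δ * ρ ≤ (B.card : ℝ) →
      ∀ w ∈ closedBall (Y : ℂ) ρ, ‖g w‖ ≤ Real.exp (-(c * ρ))

/-- LOC (from `S_ZER`, `S_LAG`, 90 lines).  For `n` let `N_n` be the number of points of `Z` in the row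
`n`, `N_n ≤ ρ + 1`, and `B` the set of the rows with `N_n ≥ δρ/4`.  Then
`δρ² ≤ #Z ≤ #B (ρ+1) + (ρ+1) δρ/4`, so `#B ≥ δρ/4` for `ρ ≥ 1`.  For `n ∈ B`, `S_ZER` for `Φ(·, n)`
gives `|Φ(z,n)| ≤ 2^{-δρ/4} = e^{-dρ}`, `d = δ log 2/4`, for `z ∈ closedBall X ρ`; then `S_LAG` (with
`δ/4`, `d`) for `Φ(z, ·)`. -/
def S_LOC : Prop :=
  ∀ δ : ℝ, 0 < δ → ∃ c ρ₀ : ℝ, 0 < c ∧ 0 < ρ₀ ∧
    ∀ (ρ X Y : ℝ) (Φ : ℂ × ℂ → ℂ) (Z : Finset (ℕ × ℕ)), ρ₀ ≤ ρ →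
      DifferentiableOn ℂ Φ (ball (X : ℂ) (8 * ρ) ×ˢ ball (Y : ℂ) (8 * ρ)) →
      (∀ p ∈ ball (X : ℂ) (8 * ρ) ×ˢ ball (Y : ℂ) (8 * ρ), ‖Φ p‖ ≤ 1) →
      (∀ p ∈ Z, X ≤ (p.1 : ℝ) ∧ (p.1 : ℝ) ≤ X + ρ ∧ Y ≤ (p.2 : ℝ) ∧ (p.2 : ℝ) ≤ Y + ρ ∧
        Φ ((p.1 : ℂ), (p.2 : ℂ)) = 0) →
      δ * ρ ^ 2 ≤ (Z.card : ℝ) →
      ∀ z ∈ closedBall (X : ℂ) ρ, ∀ w ∈ closedBall (Y : ℂ) ρ, ‖Φ (z, w)‖ ≤ Real.exp (-(c * ρ))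

/-! ## C. Counting and the uniqueness theorem -/

/-- COUNT (no dependence, 120 lines).  Put the points `p ∈ Ω`, `p ≤ R`, with `p.1 > τR` into the squares
`a = ⌊p.1/(κR)⌋`, `b = ⌊p.2/(κR)⌋`.  For such a square `(a+1)κ > τ` and `(b+1)κ > ετ` (as
`p.2 ≥ ε p.1`), so `aκ ≥ τ/2` and `bκ ≥ ετ/2`; also `aκ, bκ ≤ 1`.  Suppose the conclusion fails: for every
`(a,b)` in the finite set of such squares that are not bad there are fewer than `(δ/16)(κR)²` points in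
the square for all large `R`.  Then for large `R` (`≥ 1/κ`) with the density inequality:
points with `p.1 ≤ τR`: at most `(τR)(τR/ε) ≤ δR²/4`;
bad squares: at most `2/κ` columns, `Bd` in each, `(κR+1)² ≤ (2κR)²` points in each, together
`≤ 8 κ Bd R² ≤ δR²/4`; the other squares: at most `(1/κ+1)² ≤ 4/κ²`, together `< δR²/4`.
The sum is less than `δR²`: contradiction. -/
def S_COUNT : Prop :=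
  ∀ (Ω : Set (ℕ × ℕ)) (ε δ τ κ Bd : ℝ) (bad : ℕ → ℕ → Prop), 0 < ε → ε ≤ 1 → 0 < δ → 0 < τ →
    0 < κ → κ ≤ 1 → 0 < Bd → τ ^ 2 ≤ δ * ε / 4 → κ ≤ ε * τ / 2 → κ * Bd ≤ δ / 32 →
    InAngle Ω ε → Dens Ω δ →
    (∀ a : ℕ, τ / 2 ≤ a * κ → (a : ℝ) * κ ≤ 1 → ∀ B : Finset ℕ,
      (∀ b ∈ B, ε * τ / 2 ≤ b * κ ∧ bad a b) → (B.card : ℝ) ≤ Bd) →
    ∃ a b : ℕ, ¬ bad a b ∧ τ / 2 ≤ a * κ ∧ (a : ℝ) * κ ≤ 1 ∧ ε * τ / 2 ≤ b * κ ∧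
      (b : ℝ) * κ ≤ 1 ∧ ∀ R₀ : ℝ, ∃ R : ℝ, R₀ ≤ R ∧ ∃ Z : Finset (ℕ × ℕ), (Z : Set (ℕ × ℕ)) ⊆ Ω ∧
        (∀ p ∈ Z, R * (a * κ) ≤ (p.1 : ℝ) ∧ (p.1 : ℝ) ≤ R * (a * κ) + κ * R ∧
          R * (b * κ) ≤ (p.2 : ℝ) ∧ (p.2 : ℝ) ≤ R * (b * κ) + κ * R) ∧
        δ / 16 * (κ * R) ^ 2 ≤ (Z.card : ℝ)

/-- MAIN (from `S_AFUN`, `S_CHORD`, `S_TEL`, `S_RAYA`, `S_LOC`, `S_COUNT`, 150 lines).
Suppose `F ≢ 0`; `A` from `S_AFUN`; `c, ρ₀` from `S_LOC` for `δ/16`; `η = c/2`; `0 < τ ≤ 1` with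
`τ² ≤ δε/4`; `s = ⌈16(1 + 2/τ)⌉`; `y₁ = ετ/4`; `Λ` from `S_TEL`; `Bd = s²Λ/η + 1`; `κ > 0` so small that
`κ ≤ ετ/64`, `sκ ≤ ετ/8`, `κ Bd ≤ δ/32`.  `bad a b := ηκ < D2 A (aκ) (bκ) (sκ)`; `S_TEL` bounds the
number of the bad `b` in a column (`bκ ≥ ετ/2 ≥ y₁ + sκ`).  `S_COUNT` gives `(a,b)`; let `x₀ = aκ`,
`y₀ = bκ`, `D2 ≤ ηκ`, and `l₁, l₂` from `S_CHORD` with `h = sκ < y₀`.  For the `R` of `S_COUNT`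
(large) let `ρ = κR`, `X = R x₀`, `Y = R y₀`, `Φ(z,w) = F(z,w) exp(l₁ z + l₂ w)`.  For
`|z - X| < 8ρ`, `|w - Y| < 8ρ` put `x = Re z/R`, `y = Re w/R`: `x ≥ x₀/2 > 0`, `y > 0`,
`|x₀ y/x - y₀| = |x₀(y-y₀) - y₀(x-x₀)|/x ≤ 16κ(1 + y₀/x₀) ≤ sκ`, so
`|F(z,w)| ≤ exp(-A (Re z) (Re w)) ≤ exp(-(l₁ Re z + l₂ Re w))` (`Adm` with `t = 1`, homogeneity), i.e.
`|Φ| ≤ 1`.  `S_LOC` gives `|Φ| ≤ exp(-cκR)` for `|z-X| ≤ κR`, `|w-Y| ≤ κR`.  With `0 < κ' ≤ κ`,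
`(|l₁|+|l₂|)κ' ≤ cκ/4`, for `|z-X| ≤ κ'R`, `|w-Y| ≤ κ'R`:
`|F| ≤ exp(-cκR - R(l₁x₀+l₂y₀) + (|l₁|+|l₂|)κ'R) ≤ exp(-(A x₀ y₀ + cκ/2) R)` since
`l₁x₀+l₂y₀ = A x₀ y₀ - D2/2 ≥ A x₀ y₀ - cκ/4`.  This contradicts `S_RAYA`. -/
def S_MAIN : Prop :=
  ∀ (Ω : Set (ℕ × ℕ)) (ε δ : ℝ), 0 < ε → ε ≤ 1 → 0 < δ → InAngle Ω ε → Dens Ω δ →
    ∀ F : ℂ × ℂ → ℂ, BH F → (∀ p ∈ Ω, F ((p.1 : ℂ), (p.2 : ℂ)) = 0) → ∀ p ∈ RH2, F p = 0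

/-! ## D. The approximation theorems -/

/-- KHOL (no dependence, 120 lines).  `K(z,w)(x,y) = x^z y^w` (complex powers, `0^z = 0` for `Re z > 0`),
continuous on the square for `Re z, Re w > 0` (`K = 0` outside `RH2`), `|x^z y^w| ≤ 1`.  It is the
product of two one-variable maps `k(z) = x^z ∈ C([0,1])`, and `k` is holomorphic with derivative
`x^z log x`: `|x^{z+h} - x^z - h x^z log x| ≤ x^{Re z} |h|² |log x|² x^{-|h|}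
≤ |h|² sup_{0<x≤1} x^{Re z/2} |log x|²` for `|h| ≤ Re z/2` (`|e^u - 1 - u| ≤ |u|² e^{|u|}`), uniformly
in `x`. -/
def S_KHOL : Prop :=
  ∃ K : ℂ × ℂ → C(Q, ℂ), DifferentiableOn ℂ K RH2 ∧ (∀ p ∈ RH2, ‖K p‖ ≤ 1) ∧
    ∀ m n : ℕ, 1 ≤ m → 1 ≤ n → K ((m : ℂ), (n : ℂ)) = mon m n

/-- C0D (no dependence, 80 lines).  Stone-Weierstrass: polynomials in `x, y` are dense in `C(Q)`; if `P`
is a polynomial with `‖f - P‖ ≤ η` then `P(x,y) - P(0,y) - P(x,0) + P(0,0)` is a combination of the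
`mon m n`, `m, n ≥ 1`, at distance at most `4η` from `f`
(`f = f(x,y) - f(0,y) - f(x,0) + f(0,0)`). -/
def S_C0D : Prop :=
  ∀ f ∈ C0, f ∈ (Submodule.span ℂ {g : C(Q, ℂ) | ∃ m n : ℕ, 1 ≤ m ∧ 1 ≤ n ∧ g = mon m n}).topologicalClosure

/-- FINC (from `S_MAIN`, `S_KHOL`, `S_C0D`, 50 lines).  If some `f ∈ C0` is not in the closed span `M`,
Hahn-Banach (`Submodule.exists_dual_map_eq_bot_of_notMem` or `geometric_hahn_banach`) gives a continuous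
linear functional `l` on `C(Q)` that vanishes on `M` with `l f ≠ 0`; scale it to norm `≤ 1`.  Then
`F = l ∘ K` satisfies `BH` and vanishes on `Ω`; by `S_MAIN` it vanishes, so `l (mon m n) = 0` for all
`m, n ≥ 1`, so `l f = 0` by `S_C0D`. -/
def S_FINC : Prop :=
  ∀ (Ω : Set (ℕ × ℕ)) (ε δ : ℝ), 0 < ε → ε ≤ 1 → 0 < δ → InAngle Ω ε → Dens Ω δ →
    ∀ f ∈ C0, f ∈ (Submodule.span ℂ {g : C(Q, ℂ) | ∃ p ∈ Ω, g = mon p.1 p.2}).topologicalClosure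

/-- FINL (from `S_FINC`, 80 lines).  `C0` is dense in `L²(Q)`: continuous functions are dense
(`ContinuousMap.toLp_denseRange`) and `g(x,y) min(1,kx) min(1,ky) → g` in `L²` (dominated convergence).
`toLp` is continuous, so it maps the closed span of `S_FINC` into the closed span in `L²`. -/
def S_FINL : Prop :=
  ∀ (Ω : Set (ℕ × ℕ)) (ε δ : ℝ), 0 < ε → ε ≤ 1 → 0 < δ → InAngle Ω ε → Dens Ω δ →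
    (Submodule.span ℂ {g : Lp ℂ 2 (volume : Measure Q) | ∃ p ∈ Ω,
      g = ContinuousMap.toLp (E := ℂ) 2 volume ℂ (mon p.1 p.2)}).topologicalClosure = ⊤

end H991.MU
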